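import Pool.Agent.H37.CP.Targets

/-!
Row FINR of the board `cpe_modules` (MP_c62aed_lc): the statement for real monotone circuits.
-/

set_option autoImplicit false

namespace Pool.Agent.H38.CPE

open Finset
open Pool.Agent.H37.CP
open Pool.Agent.H1.LP (Clause viol Loc Sys supp ip)
open Pool.Agent.H96.KX (psz fac jun PDz)

lemma rsound_mono {n : ℕ} {C : RCircuit n} {k M M' : ℕ} (h : M ≤ M') (hC : RSound C k M') :
    RSound C k M := fun m phi hm h1 h2 => hC m phi (hm.trans h) h1 h2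

theorem pf_FINR (hX : Pool.Agent.H96.KX.S_X3) (hR : S_RMC) (hP : S_PARC) (hN : S_NUM)
    (hQ : S_REQ) : S_FINR := by
  classical
  intro ε hε
  obtain ⟨R0, E, B0, hR0, hE, hB⟩ := hX ε hε
  obtain ⟨l, hl, B1, hB1⟩ := hP R0 E hR0 hE
  obtain ⟨q, hq⟩ : ∃ q : ℕ, q = 2 ^ l := ⟨_, rfl⟩
  have hq64 : 64 ≤ q := by
    rw [hq]
    calc 64 = 2 ^ 6 := by norm_num
      _ ≤ 2 ^ l := Nat.pow_le_pow_right (by norm_num) hl
  have hq0 : 0 < q := by omega
  have hqR : (1 : ℝ) ≤ q := by exact_mod_cast hq0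
  have hqR0 : (0 : ℝ) < q := by linarith
  refine ⟨R0 * (2 * q) ^ 3, 1 / (16000 * (q : ℝ) ^ 2), 1 / (4 * (q : ℝ)), by positivity,
    by positivity, q * (B0 + B1 + 200), fun n hn => ?_⟩
  obtain ⟨B, hBd⟩ : ∃ B : ℕ, B = n / q := ⟨_, rfl⟩
  have hBlow : B0 + B1 + 200 ≤ B := by
    rw [hBd, Nat.le_div_iff_mul_le hq0, mul_comm]
    exact hn
  have hBq : B * q ≤ n := by rw [hBd]; exact Nat.div_mul_le_self n q
  have hnB : n ≤ 2 * (B * q) := by
    have h1 : n < q * (B + 1) := by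
      rw [hBd]
      exact Nat.lt_mul_div_succ n hq0
    have h2 : q * 1 ≤ q * B := Nat.mul_le_mul_left q (by omega)
    have h3 : q * (B + 1) = B * q + q := by ring
    have h4 : q * B = B * q := mul_comm _ _
    omega
  have hBn : B ≤ n := by
    calc B = B * 1 := (mul_one B).symm
      _ ≤ B * q := Nat.mul_le_mul_left B (by omega)
      _ ≤ n := hBq
  obtain ⟨T, Ys, hT, hA, hfar⟩ := hB B (by omega)
  obtain ⟨hB1', h9, hnum⟩ := hB1 B (by omega)
  have hRB : 1 ≤ R0 * B := Nat.mul_pos hR0 (by omega)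
  obtain ⟨Y, m, phi, hY, hm, hC⟩ := hR B (R0 * B) (B / E) q n ε T Ys hRB h9 (by omega) hBq hT hA
    hfar (by
      have hqc : (q : ℝ) = (2 : ℝ) ^ l := by rw [hq]; push_cast; rfl
      rw [hqc]
      exact hnum)
  have hpow : 4 ≤ (2 * q) ^ 3 := by
    calc 4 ≤ 2 * q := by omega
      _ = (2 * q) ^ 1 := (pow_one _).symm
      _ ≤ (2 * q) ^ 3 := Nat.pow_le_pow_right (by omega) (by norm_num)
  have hK1 : 4 * (R0 * B) ≤ R0 * (2 * q) ^ 3 * n := by
    calc 4 * (R0 * B) ≤ (2 * q) ^ 3 * (R0 * n) :=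
          Nat.mul_le_mul hpow (Nat.mul_le_mul_left R0 hBn)
      _ = _ := by ring
  have hK2 : R0 * B * (2 * q) ^ 3 ≤ R0 * (2 * q) ^ 3 * n := by
    calc R0 * B * (2 * q) ^ 3 = R0 * (2 * q) ^ 3 * B := by ring
      _ ≤ _ := Nat.mul_le_mul_left _ hBn
  refine ⟨Y, m, phi, hY, fun a => ⟨(hm a).1, (hm a).2.1.trans hK1, (hm a).2.2.1,
    (hm a).2.2.2⟩, fun Ci hS hAc => ?_⟩
  have hCi := hC Ci (Finset.univ.filter (fun a => RAcc Ci (phi a))) (rsound_mono hK2 hS)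
    (fun a ha => (Finset.mem_filter.1 ha).2)
  have hYR : (0 : ℝ) < Y := by exact_mod_cast hY
  have hBR : (200 : ℝ) ≤ B := by
    have : 200 ≤ B := by omega
    exact_mod_cast this
  have hnBR : (n : ℝ) ≤ 2 * (B * q) := by exact_mod_cast hnB
  have hn0 : (0 : ℝ) ≤ n := Nat.cast_nonneg n
  have hγ : 1 / (4 * (q : ℝ)) * n ≤ (B : ℝ) / 2 := by
    rw [div_mul_eq_mul_div, one_mul, div_le_iff₀ (by positivity)]
    linarith [hnBR]
  have hmain : ∀ t p : ℕ, Ci.depth ≤ (t + 1) * p →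
      (2 : ℝ) ^ ((B : ℝ) / 2) ≤ 2 * (16 * Ci.size) ^ t * 16 ^ p := by
    intro t p htp
    have h1 := hCi t p htp
    have h2 : (2 : ℝ) ^ (-(1 / (4 * (q : ℝ)) * n)) * Y * 2 ^ B ≤
        2 * (16 * Ci.size) ^ t * 16 ^ p * Y :=
      (mul_le_mul_of_nonneg_right hAc.le (by positivity)).trans h1
    have h3 : (2 : ℝ) ^ (-(1 / (4 * (q : ℝ)) * n)) * 2 ^ B ≤
        2 * (16 * Ci.size) ^ t * 16 ^ p := by
      refine le_of_mul_le_mul_right ?_ hYR
      calc (2 : ℝ) ^ (-(1 / (4 * (q : ℝ)) * n)) * 2 ^ B * Y =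
            (2 : ℝ) ^ (-(1 / (4 * (q : ℝ)) * n)) * Y * 2 ^ B := by ring
        _ ≤ _ := h2
    refine le_trans ?_ h3
    rw [← Real.rpow_natCast 2 B, ← Real.rpow_add (by norm_num)]
    exact Real.rpow_le_rpow_of_exponent_le (by norm_num) (by linarith)
  obtain ⟨hd, hd2⟩ := hN ((B : ℝ) / 2) Ci.size Ci.depth (by linarith)
    (by unfold RCircuit.size; omega) hmain
  have hsz : 2 ≤ Ci.size := by
    have h1 : Ci.depth ≤ Ci.out := (hQ n Ci.gate Ci.out).2.2.2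
    have h2 : (12 : ℝ) < Ci.depth := by linarith
    have h3 : 12 < Ci.depth := by exact_mod_cast h2
    unfold RCircuit.size
    omega
  have hd3 := hd2 hsz
  constructor
  · refine le_trans ?_ hd
    rw [div_mul_eq_mul_div, one_mul, div_le_iff₀ (by positivity)]
    have h1 : (B : ℝ) * q * 1 ≤ (B : ℝ) * q * q := by gcongr
    nlinarith [h1, hnBR]
  · refine le_trans ?_ hd3
    rw [div_mul_eq_mul_div, one_mul, div_le_iff₀ (by positivity)]
    have h1 : (n : ℝ) ^ 2 ≤ (2 * (B * q)) ^ 2 := pow_le_pow_left₀ hn0 hnBR 2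
    calc (n : ℝ) ^ 2 ≤ (2 * (B * q)) ^ 2 := h1
      _ = ((B : ℝ) / 2) ^ 2 / 1000 * (16000 * (q : ℝ) ^ 2) := by ring

end Pool.Agent.H38.CPE
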